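import Pool.Agent.W819.EN.Stm

/-!
Project EN: annuli by superadditivity.
-/

set_option autoImplicit false

namespace Pool.Agent.W924.EN

open H974 Finset Pool.Agent.W819.EN

lemma bx_mono (v : Vtx) {k l : ℤ} (h : k ≤ l) : bx v k ⊆ bx v l := by
  unfold bx
  exact RE_subset (by omega) (by omega) (by omega) (by omega)

lemma loc' {N : Finset Edg → Vtx → ℕ → ℕ → ℕ} (hG : Geo N) {v : Vtx} {r R : ℕ} (h : r ≤ R)
    {S : Finset Edg} (hS : an v r R ⊆ S) (F : Finset Edg) : N F v r R = N (F ∩ S) v r R := by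
  rw [hG.loc F v r R h, hG.loc (F ∩ S) v r R h]
  congr 1
  ext x
  simp only [Finset.mem_inter]
  constructor
  · rintro ⟨h1, h2⟩
    exact ⟨⟨h1, hS h2⟩, h2⟩
  · rintro ⟨⟨h1, -⟩, h2⟩
    exact ⟨h1, h2⟩

lemma indep {N : Finset Edg → Vtx → ℕ → ℕ → ℕ} (hG : Geo N) (s : ℝ) {b R : ℕ} (hb : 1 ≤ b)
    (hR : 8 * b ≤ R) :
    Ex P2 (bx (0, 0) R) (fun F => Real.exp (s * N F (0, 0) 0 (2 * b)) *
      Real.exp (s * N F (0, 0) (4 * b) R)) =
    Ex P2 (bx (0, 0) (2 * b : ℕ)) (fun F => Real.exp (s * N F (0, 0) 0 (2 * b))) *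
      Ex P2 (bx (0, 0) R) (fun F => Real.exp (s * N F (0, 0) (4 * b) R)) := by
  have h1 : bx (0, 0) (2 * b : ℕ) ⊆ bx (0, 0) R := bx_mono _ (by push_cast; omega)
  have h2 : an (0, 0) (4 * b) R ⊆ bx (0, 0) R := sdiff_subset
  have h3 : an (0, 0) 0 (2 * b) ⊆ bx (0, 0) (2 * b : ℕ) := sdiff_subset
  have h4 : Disjoint (bx (0, 0) (2 * b : ℕ)) (an (0, 0) (4 * b) R) := by
    rw [Finset.disjoint_left]
    intro x hx hx'
    unfold an at hx'
    rw [Finset.mem_sdiff] at hx'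
    exact hx'.2 (bx_mono _ (by push_cast; omega) hx)
  have h5 : ∀ F : Finset Edg, Real.exp (s * N F (0, 0) 0 (2 * b)) =
      Real.exp (s * N (F ∩ bx (0, 0) (2 * b : ℕ)) (0, 0) 0 (2 * b)) := fun F => by
    rw [loc' hG (by omega) h3 F]
  rw [Ex_mul_indep (p := P2) h1 h2 h4 (fun F _ => h5 F) (fun F _ => by
    rw [loc' hG (by omega) (le_refl _) F]), Ex_local h1 (fun F _ => h5 F)]

lemma sup' {N : Finset Edg → Vtx → ℕ → ℕ → ℕ} (hG : Geo N) {b R : ℕ} (hb : 1 ≤ b)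
    (hR : 8 * b ≤ R) (F : Finset Edg) :
    (N F (0, 0) 0 (2 * b) : ℝ) + N F (0, 0) (4 * b) R ≤ N F (0, 0) 0 R := by
  exact_mod_cast hG.super F (0, 0) 0 (2 * b) (4 * b) R (by omega) (by omega) (by omega)

theorem t_ANN1 {N : Finset Edg → Vtx → ℕ → ℕ → ℕ} (hG : Geo N) (h1 : One N) :
    (∀ s, 0 ≤ s → AnnUp N s) ∧ (∀ s, s ≤ 0 → AnnLo N s) := by
  have hok : Ok P2 := okq (q := (1 / 2 : ℝ)) (by norm_num) (by norm_num)
  constructor
  · intro s hs ε hε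
    obtain ⟨C, hC, hCR⟩ := h1 s (ε / 2) (by linarith)
    refine ⟨C ^ 2 * (2 : ℝ) ^ (-Lam s), by positivity, fun b R hb hR => ?_⟩
    have hbR : (0 : ℝ) < b := by exact_mod_cast hb
    have hRR : (0 : ℝ) < R := by
      have : 0 < R := by omega
      exact_mod_cast this
    have h2b : (2 : ℝ) * b ≤ R := by
      have : 2 * b ≤ R := by omega
      exact_mod_cast this
    have e1 := (hCR (2 * b) (by omega)).1
    have e2 := (hCR R (by omega)).2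
    have e3 : Ex P2 (bx (0, 0) R) (fun F => Real.exp (s * N F (0, 0) 0 (2 * b)) *
        Real.exp (s * N F (0, 0) (4 * b) R)) ≤
        Ex P2 (bx (0, 0) R) (fun F => Real.exp (s * N F (0, 0) 0 R)) := by
      refine Ex_mono hok fun F _ => ?_
      rw [← Real.exp_add, Real.exp_le_exp, ← mul_add]
      exact mul_le_mul_of_nonneg_left (sup' hG hb hR F) hs
    rw [indep hG s hb hR] at e3
    set A := Ex P2 (bx (0, 0) (2 * b : ℕ)) (fun F => Real.exp (s * N F (0, 0) 0 (2 * b)))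
    set B := Ex P2 (bx (0, 0) R) (fun F => Real.exp (s * N F (0, 0) (4 * b) R)) with hB
    have hB0 : 0 ≤ B := Ex_nonneg hok fun F _ => (Real.exp_pos _).le
    have e4 : C⁻¹ * ((2 * b : ℕ) : ℝ) ^ (Lam s - ε / 2) * B ≤ C * (R : ℝ) ^ (Lam s + ε / 2) :=
      (mul_le_mul_of_nonneg_right e1 hB0).trans (e3.trans e2)
    push_cast at e4
    have e5 : B ≤ C ^ 2 * ((R : ℝ) ^ (Lam s + ε / 2) * (2 * b : ℝ) ^ (-(Lam s - ε / 2))) := by
      have hp : (0 : ℝ) < (2 * b : ℝ) ^ (Lam s - ε / 2) := by positivity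
      rw [Real.rpow_neg (by positivity)]
      have e6 : C⁻¹ * (2 * b : ℝ) ^ (Lam s - ε / 2) * B * (C * ((2 * b : ℝ) ^
          (Lam s - ε / 2))⁻¹) = B := by
        field_simp
      rw [← e6]
      calc C⁻¹ * (2 * b : ℝ) ^ (Lam s - ε / 2) * B * (C * ((2 * b : ℝ) ^ (Lam s - ε / 2))⁻¹)
          ≤ C * (R : ℝ) ^ (Lam s + ε / 2) * (C * ((2 * b : ℝ) ^ (Lam s - ε / 2))⁻¹) :=
            mul_le_mul_of_nonneg_right e4 (by positivity)
        _ = _ := by ring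
    refine e5.trans ?_
    have e7 : (R : ℝ) ^ (Lam s + ε / 2) = (R : ℝ) ^ Lam s * (R : ℝ) ^ (ε / 2) :=
      Real.rpow_add hRR _ _
    have e8 : (2 * b : ℝ) ^ (-(Lam s - ε / 2)) = (2 : ℝ) ^ (-Lam s) * ((b : ℝ) ^ Lam s)⁻¹ *
        (2 * b : ℝ) ^ (ε / 2) := by
      rw [show -(Lam s - ε / 2) = -Lam s + ε / 2 by ring, Real.rpow_add (by positivity),
        Real.mul_rpow (by norm_num) hbR.le, Real.rpow_neg hbR.le]
    have e9 : (2 * b : ℝ) ^ (ε / 2) ≤ (R : ℝ) ^ (ε / 2) :=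
      Real.rpow_le_rpow (by positivity) h2b (by linarith)
    have e10 : (R : ℝ) ^ ε = (R : ℝ) ^ (ε / 2) * (R : ℝ) ^ (ε / 2) := by
      rw [← Real.rpow_add hRR]
      congr 1
      ring
    rw [e7, e8, Real.div_rpow hRR.le hbR.le, e10]
    calc C ^ 2 * ((R : ℝ) ^ Lam s * (R : ℝ) ^ (ε / 2) * ((2 : ℝ) ^ (-Lam s) *
          ((b : ℝ) ^ Lam s)⁻¹ * (2 * b : ℝ) ^ (ε / 2)))
        ≤ C ^ 2 * ((R : ℝ) ^ Lam s * (R : ℝ) ^ (ε / 2) * ((2 : ℝ) ^ (-Lam s) *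
          ((b : ℝ) ^ Lam s)⁻¹ * (R : ℝ) ^ (ε / 2))) := by gcongr
      _ = _ := by ring
  · intro s hs ε hε
    obtain ⟨C, hC, hCR⟩ := h1 s (ε / 2) (by linarith)
    refine ⟨C ^ 2 * (2 : ℝ) ^ (Lam s), by positivity, fun b R hb hR => ?_⟩
    have hbR : (0 : ℝ) < b := by exact_mod_cast hb
    have hRR : (0 : ℝ) < R := by
      have : 0 < R := by omega
      exact_mod_cast this
    have h2b : (2 : ℝ) * b ≤ R := by
      have : 2 * b ≤ R := by omega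
      exact_mod_cast this
    have e1 := (hCR (2 * b) (by omega)).2
    have e2 := (hCR R (by omega)).1
    have e3 : Ex P2 (bx (0, 0) R) (fun F => Real.exp (s * N F (0, 0) 0 R)) ≤
        Ex P2 (bx (0, 0) R) (fun F => Real.exp (s * N F (0, 0) 0 (2 * b)) *
        Real.exp (s * N F (0, 0) (4 * b) R)) := by
      refine Ex_mono hok fun F _ => ?_
      rw [← Real.exp_add, Real.exp_le_exp, ← mul_add]
      exact mul_le_mul_of_nonpos_left (sup' hG hb hR F) hs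
    rw [indep hG s hb hR] at e3
    set A := Ex P2 (bx (0, 0) (2 * b : ℕ)) (fun F => Real.exp (s * N F (0, 0) 0 (2 * b)))
    set B := Ex P2 (bx (0, 0) R) (fun F => Real.exp (s * N F (0, 0) (4 * b) R)) with hB
    have hB0 : 0 ≤ B := Ex_nonneg hok fun F _ => (Real.exp_pos _).le
    have e4 : C⁻¹ * (R : ℝ) ^ (Lam s - ε / 2) ≤ C * ((2 * b : ℕ) : ℝ) ^ (Lam s + ε / 2) * B :=
      e2.trans (e3.trans (mul_le_mul_of_nonneg_right e1 hB0))
    push_cast at e4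
    have e5 : C⁻¹ ^ 2 * ((R : ℝ) ^ (Lam s - ε / 2) * (2 * b : ℝ) ^ (-(Lam s + ε / 2))) ≤ B := by
      have hp : (0 : ℝ) < (2 * b : ℝ) ^ (Lam s + ε / 2) := by positivity
      rw [Real.rpow_neg (by positivity)]
      have e6 : C * (2 * b : ℝ) ^ (Lam s + ε / 2) * B * (C⁻¹ * ((2 * b : ℝ) ^
          (Lam s + ε / 2))⁻¹) = B := by
        field_simp
      rw [← e6]
      calc C⁻¹ ^ 2 * ((R : ℝ) ^ (Lam s - ε / 2) * ((2 * b : ℝ) ^ (Lam s + ε / 2))⁻¹)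
          = C⁻¹ * (R : ℝ) ^ (Lam s - ε / 2) * (C⁻¹ * ((2 * b : ℝ) ^ (Lam s + ε / 2))⁻¹) := by
            ring
        _ ≤ _ := mul_le_mul_of_nonneg_right e4 (by positivity)
    refine le_trans ?_ e5
    have e7 : (R : ℝ) ^ (Lam s - ε / 2) = (R : ℝ) ^ Lam s * (R : ℝ) ^ (-(ε / 2)) := by
      rw [← Real.rpow_add hRR]
      congr 1
    have e8 : (2 * b : ℝ) ^ (-(Lam s + ε / 2)) = ((2 : ℝ) ^ (Lam s))⁻¹ * ((b : ℝ) ^ Lam s)⁻¹ *
        (2 * b : ℝ) ^ (-(ε / 2)) := by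
      rw [show -(Lam s + ε / 2) = -Lam s + -(ε / 2) by ring, Real.rpow_add (by positivity),
        Real.mul_rpow (by norm_num) hbR.le, Real.rpow_neg hbR.le, Real.rpow_neg (by norm_num)]
    have e9 : (R : ℝ) ^ (-(ε / 2)) ≤ (2 * b : ℝ) ^ (-(ε / 2)) :=
      Real.rpow_le_rpow_of_nonpos (by positivity) h2b (by linarith)
    have e10 : (R : ℝ) ^ (-ε) = (R : ℝ) ^ (-(ε / 2)) * (R : ℝ) ^ (-(ε / 2)) := by
      rw [← Real.rpow_add hRR]
      congr 1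
      ring
    rw [e7, e8, Real.div_rpow hRR.le hbR.le, e10]
    calc (C ^ 2 * (2 : ℝ) ^ (Lam s))⁻¹ * ((R : ℝ) ^ Lam s / (b : ℝ) ^ Lam s) *
          ((R : ℝ) ^ (-(ε / 2)) * (R : ℝ) ^ (-(ε / 2)))
        = C⁻¹ ^ 2 * ((R : ℝ) ^ Lam s * (R : ℝ) ^ (-(ε / 2)) * (((2 : ℝ) ^ (Lam s))⁻¹ *
          ((b : ℝ) ^ Lam s)⁻¹ * (R : ℝ) ^ (-(ε / 2)))) := by
          rw [mul_inv, inv_pow]
          ring
      _ ≤ _ := by gcongr

end Pool.Agent.W924.EN
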